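import Pool.Agent.L7h50.AG.Dir

set_option autoImplicit false

/-! Measures with at most one atom besides `0` are determined by the first three probabilities. -/

namespace Pool.Agent.L7h52.AG
open MeasureTheory Set Pool.Agent.L7h50.AG

theorem form (π : Measure ℝ) [IsProbabilityMeasure π] (a : ℝ) (h : ∀ᵐ u ∂π, u = 0 ∨ u = a) :
    ∃ c m : ENNReal, c + m = 1 ∧ π = c • Measure.dirac 0 + m • Measure.dirac a := by
  by_cases h0 : a = 0
  · refine ⟨1, 0, by simp, ?_⟩
    have h1 : ∀ᵐ u ∂π, u ∈ ({0} : Set ℝ) := by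
      filter_upwards [h] with u hu
      rw [h0] at hu
      simpa using hu
    have h2 : π {0} = 1 := (mem_ae_iff_prob_eq_one (measurableSet_singleton _)).1 h1
    have h3 := Measure.restrict_eq_self_of_ae_mem h1
    rw [Measure.restrict_singleton, h2] at h3
    rw [← h3]
    simp
  · refine ⟨π {0}, π {a}, ?_, ?_⟩
    · have h1 : ∀ᵐ u ∂π, u ∈ ({0} ∪ {a} : Set ℝ) := by
        filter_upwards [h] with u hu
        exact hu
      have h2 : π ({0} ∪ {a}) = 1 :=
        (mem_ae_iff_prob_eq_one ((measurableSet_singleton _).union (measurableSet_singleton _))).1 h1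
      rw [measure_union (by simpa using Ne.symm h0) (measurableSet_singleton _)] at h2
      exact h2
    · have h1 : ∀ᵐ u ∂π, u ∈ ({0} ∪ {a} : Set ℝ) := by
        filter_upwards [h] with u hu
        exact hu
      have h3 := Measure.restrict_eq_self_of_ae_mem h1
      rw [Measure.restrict_union (by simpa using Ne.symm h0) (measurableSet_singleton _),
        Measure.restrict_singleton, Measure.restrict_singleton] at h3
      exact h3.symm

theorem int_form {π : Measure ℝ} {a : ℝ} {c m : ENNReal} (h1 : c + m = 1)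
    (hπ : π = c • Measure.dirac 0 + m • Measure.dirac a) (f : ℝ → ℝ) :
    ∫ u, f u ∂π = c.toReal * f 0 + m.toReal * f a := by
  have hc : c ≠ ⊤ := fun h => by rw [h] at h1; simp at h1
  have hm : m ≠ ⊤ := fun h => by rw [h] at h1; simp at h1
  rw [hπ, integral_add_measure, integral_smul_measure, integral_smul_measure, integral_dirac,
    integral_dirac, smul_eq_mul, smul_eq_mul]
  · exact (integrable_dirac (by simp)).smul_measure hc
  · exact (integrable_dirac (by simp)).smul_measure hm

theorem vals {π : Measure ℝ} {a : ℝ} (ha : 0 ≤ a) {c m : ENNReal} (h1 : c + m = 1)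
    (hπ : π = c • Measure.dirac 0 + m • Measure.dirac a) :
    ∃ y : ℝ, y = m.toReal * Real.exp (-(a * m.toReal)) ∧ (∫ s, P1 π s ∂π) = c.toReal + y ∧
      (∫ s, P2 π s ∂π) = a * y ^ 2 ∧ (∫ s, P3 π s ∂π) = 3 / 2 * a ^ 2 * y ^ 3 := by
  have I := int_form h1 hπ
  have t0 : total π 0 = 0 := by
    unfold total
    rw [I]
    simp [ha]
  have ta : total π a = a * m.toReal := by
    unfold total
    rw [I]
    simp [ha]
    ring
  have p0 : P1 π 0 = 1 := by unfold P1; rw [t0]; simp
  have pa : P1 π a = Real.exp (-(a * m.toReal)) := by unfold P1; rw [ta]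
  refine ⟨_, rfl, ?_, ?_, ?_⟩
  · rw [I, p0, pa]
    ring
  · have q0 : P2 π 0 = 0 := by
      unfold P2
      rw [I]
      simp [ha]
    have qa : P2 π a = Real.exp (-(a * m.toReal)) * (m.toReal * (a * Real.exp (-(a * m.toReal)))) := by
      unfold P2
      rw [I, ta, pa]
      simp [ha]
    rw [I, q0, qa]
    ring
  · have q0 : P2 π 0 = 0 := by
      unfold P2
      rw [I]
      simp [ha]
    have qa : P2 π a = Real.exp (-(a * m.toReal)) * (m.toReal * (a * Real.exp (-(a * m.toReal)))) := by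
      unfold P2
      rw [I, ta, pa]
      simp [ha]
    have r0 : P3 π 0 = 0 := by
      unfold P3
      rw [I, I]
      simp [ha]
    have ra : P3 π a = Real.exp (-(a * m.toReal)) *
        ((m.toReal * (a * Real.exp (-(a * m.toReal)))) ^ 2 / 2 + m.toReal * (a *
          (Real.exp (-(a * m.toReal)) * (m.toReal * (a * Real.exp (-(a * m.toReal))))))) := by
      unfold P3
      rw [I, I, ta, pa, qa, q0]
      simp [ha]
    rw [I, r0, ra]
    ring

theorem det (π π' : Measure ℝ) [IsProbabilityMeasure π] [IsProbabilityMeasure π'] (a a' : ℝ)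
    (ha : 0 ≤ a) (ha' : 0 ≤ a') (hπ : ∀ᵐ u ∂π, u = 0 ∨ u = a) (hπ' : ∀ᵐ u ∂π', u = 0 ∨ u = a')
    (h1 : ∫ s, P1 π s ∂π = ∫ s, P1 π' s ∂π') (h2 : ∫ s, P2 π s ∂π = ∫ s, P2 π' s ∂π')
    (h3 : ∫ s, P3 π s ∂π = ∫ s, P3 π' s ∂π') : π = π' := by
  obtain ⟨c, m, e1, e2⟩ := form π a hπ
  obtain ⟨c', m', e1', e2'⟩ := form π' a' hπ'
  obtain ⟨y, hy, v1, v2, v3⟩ := vals ha e1 e2
  obtain ⟨y', hy', v1', v2', v3'⟩ := vals ha' e1' e2'
  rw [v1, v1'] at h1
  rw [v2, v2'] at h2
  rw [v3, v3'] at h3
  have hc : c ≠ ⊤ := fun h => by rw [h] at e1; simp at e1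
  have hm : m ≠ ⊤ := fun h => by rw [h] at e1; simp at e1
  have hc' : c' ≠ ⊤ := fun h => by rw [h] at e1'; simp at e1'
  have hm' : m' ≠ ⊤ := fun h => by rw [h] at e1'; simp at e1'
  have s1 : c.toReal + m.toReal = 1 := by rw [← ENNReal.toReal_add hc hm, e1]; simp
  have s1' : c'.toReal + m'.toReal = 1 := by rw [← ENNReal.toReal_add hc' hm', e1']; simp
  have y0 : 0 ≤ y := by rw [hy]; positivity
  have y0' : 0 ≤ y' := by rw [hy']; positivity
  -- the degenerate case
  have deg : ∀ (ρ : Measure ℝ) (b x : ℝ) (d n : ENNReal), d + n = 1 → n ≠ ⊤ →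
      ρ = d • Measure.dirac 0 + n • Measure.dirac b → x = n.toReal * Real.exp (-(b * n.toReal)) →
      b * x ^ 2 = 0 → ρ = Measure.dirac 0 := by
    intro ρ b x d n k1 k2 k3 k4 k5
    rcases mul_eq_zero.1 k5 with k | k
    · rw [k3, k, ← add_smul, k1, one_smul]
    · have k6 : n = 0 := by
        have k7 : x = 0 := by simpa using k
        rw [k4] at k7
        rcases mul_eq_zero.1 k7 with k8 | k8
        · exact (ENNReal.toReal_eq_zero_iff _).1 k8 |>.resolve_right k2
        · exact absurd k8 (Real.exp_pos _).ne'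
      rw [k6, add_zero] at k1
      rw [k3, k6, k1]
      simp
  by_cases hz : a * y ^ 2 = 0
  · rw [deg π a y c m e1 hm e2 hy hz, deg π' a' y' c' m' e1' hm' e2' hy' (h2 ▸ hz)]
  · have hz' : a' * y' ^ 2 ≠ 0 := h2 ▸ hz
    have ap : 0 < a := lt_of_le_of_ne ha fun h => hz (by rw [← h]; ring)
    have yp : 0 < y := lt_of_le_of_ne y0 fun h => hz (by rw [← h]; ring)
    have ap' : 0 < a' := lt_of_le_of_ne ha' fun h => hz' (by rw [← h]; ring)
    have yp' : 0 < y' := lt_of_le_of_ne y0' fun h => hz' (by rw [← h]; ring)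
    have f1 : a * y = a' * y' := by
      have g1 : (a * y ^ 2) * (a * y) = (a * y ^ 2) * (a' * y') := by
        have g2 : a ^ 2 * y ^ 3 = a' ^ 2 * y' ^ 3 := by linarith
        calc (a * y ^ 2) * (a * y) = a ^ 2 * y ^ 3 := by ring
          _ = a' ^ 2 * y' ^ 3 := g2
          _ = (a' * y' ^ 2) * (a' * y') := by ring
          _ = (a * y ^ 2) * (a' * y') := by rw [h2]
      exact mul_left_cancel₀ hz g1
    have f2 : y = y' := by
      have g1 : (a * y) * y = (a * y) * y' := by
        calc (a * y) * y = a * y ^ 2 := by ring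
          _ = a' * y' ^ 2 := h2
          _ = (a' * y') * y' := by ring
          _ = (a * y) * y' := by rw [f1]
      exact mul_left_cancel₀ (mul_pos ap yp).ne' g1
    have f3 : a = a' := by
      rw [f2] at f1
      exact mul_right_cancel₀ yp'.ne' f1
    have f4 : c.toReal = c'.toReal := by linarith
    have f5 : m.toReal = m'.toReal := by linarith
    have f6 : c = c' := (ENNReal.toReal_eq_toReal_iff' hc hc').1 f4
    have f7 : m = m' := (ENNReal.toReal_eq_toReal_iff' hm hm').1 f5
    rw [e2, e2', f3, f6, f7]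

end Pool.Agent.L7h52.AG
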