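import Mathlib

set_option autoImplicit false

/-! The kernel `min s u` is positive semidefinite. -/

namespace Pool.Agent.L7h52.AG
open MeasureTheory Set

theorem prod_ind (f : ℝ → ℝ) (s u t : ℝ) : (Ioi t).indicator f s * (Ioi t).indicator f u =
    (Iio (min s u)).indicator (fun _ => f s * f u) t := by
  unfold Set.indicator
  simp only [mem_Ioi, mem_Iio, lt_min_iff]
  by_cases h1 : t < s <;> by_cases h2 : t < u <;> simp [h1, h2]

theorem mreal {m : ℝ} (hm : 0 ≤ m) : (volume.restrict (Ioi (0 : ℝ))).real (Iio m) = m := by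
  rw [Measure.real, Measure.restrict_apply measurableSet_Iio, inter_comm, Ioi_inter_Iio,
    Real.volume_Ioo, sub_zero, ENNReal.toReal_ofReal hm]

theorem mfin (m : ℝ) : (volume.restrict (Ioi (0 : ℝ))) (Iio m) ≠ ⊤ := by
  rw [Measure.restrict_apply measurableSet_Iio, inter_comm, Ioi_inter_Iio, Real.volume_Ioo]
  exact ENNReal.ofReal_ne_top

theorem frm (π : Measure ℝ) [IsProbabilityMeasure π] (h0 : ∀ᵐ u ∂π, 0 ≤ u) (f : ℝ → ℝ)
    (hf : Measurable f)
    (hi : Integrable (Function.uncurry fun s u : ℝ => f s * (min s u * f u)) (π.prod π))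
    (hf1 : Integrable f π) : 0 ≤ ∫ s, ∫ u, f s * (min s u * f u) ∂π ∂π := by
  have hae : ∀ᵐ q : ℝ × ℝ ∂(π.prod π), 0 ≤ min q.1 q.2 := by
    have a1 : ∀ᵐ q : ℝ × ℝ ∂(π.prod π), 0 ≤ q.1 := Measure.quasiMeasurePreserving_fst.ae h0
    have a2 : ∀ᵐ q : ℝ × ℝ ∂(π.prod π), 0 ≤ q.2 := Measure.quasiMeasurePreserving_snd.ae h0
    filter_upwards [a1, a2] with q h1 h2 using le_min h1 h2
  have hval : ∀ᵐ q : ℝ × ℝ ∂(π.prod π),
      ∫ t, (Ioi t).indicator f q.1 * (Ioi t).indicator f q.2 ∂(volume.restrict (Ioi (0 : ℝ))) =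
        f q.1 * (min q.1 q.2 * f q.2) := by
    filter_upwards [hae] with q hq
    simp only [prod_ind]
    rw [integral_indicator_const _ measurableSet_Iio, mreal hq, smul_eq_mul]
    ring
  have hmeas : Measurable fun p : (ℝ × ℝ) × ℝ =>
      (Ioi p.2).indicator f p.1.1 * (Ioi p.2).indicator f p.1.2 := by
    have b1 : Measurable fun p : (ℝ × ℝ) × ℝ => (Ioi p.2).indicator f p.1.1 := by
      unfold Set.indicator
      exact Measurable.ite (measurableSet_lt measurable_snd measurable_fst.fst)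
        (hf.comp measurable_fst.fst) measurable_const
    have b2 : Measurable fun p : (ℝ × ℝ) × ℝ => (Ioi p.2).indicator f p.1.2 := by
      unfold Set.indicator
      exact Measurable.ite (measurableSet_lt measurable_snd measurable_fst.snd)
        (hf.comp measurable_fst.snd) measurable_const
    exact b1.mul b2
  have hint : Integrable (fun p : (ℝ × ℝ) × ℝ =>
      (Ioi p.2).indicator f p.1.1 * (Ioi p.2).indicator f p.1.2)
      ((π.prod π).prod (volume.restrict (Ioi (0 : ℝ)))) := by
    rw [integrable_prod_iff hmeas.aestronglyMeasurable]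
    constructor
    · refine Filter.Eventually.of_forall fun q => ?_
      simp only [prod_ind]
      exact (integrableOn_const (mfin _)).integrable_indicator measurableSet_Iio
    · refine hi.norm.congr ?_
      filter_upwards [hae] with q hq
      have c1 : ∀ t : ℝ, ‖(Ioi t).indicator f q.1 * (Ioi t).indicator f q.2‖ =
          (Iio (min q.1 q.2)).indicator (fun _ => ‖f q.1 * f q.2‖) t := by
        intro t
        rw [prod_ind, norm_indicator_eq_indicator_norm]
      simp only [c1]
      rw [integral_indicator_const _ measurableSet_Iio, mreal hq, smul_eq_mul]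
      simp only [Function.uncurry, norm_mul, Real.norm_eq_abs]
      rw [abs_of_nonneg hq]
      ring
  have e1 : ∫ s, ∫ u, f s * (min s u * f u) ∂π ∂π =
      ∫ q : ℝ × ℝ, f q.1 * (min q.1 q.2 * f q.2) ∂(π.prod π) :=
    (integral_prod _ hi).symm
  have e2 : ∫ q : ℝ × ℝ, f q.1 * (min q.1 q.2 * f q.2) ∂(π.prod π) =
      ∫ q : ℝ × ℝ, ∫ t, (Ioi t).indicator f q.1 * (Ioi t).indicator f q.2
        ∂(volume.restrict (Ioi (0 : ℝ))) ∂(π.prod π) :=
    integral_congr_ae (by filter_upwards [hval] with q hq using hq.symm)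
  have e3 : ∫ q : ℝ × ℝ, ∫ t, (Ioi t).indicator f q.1 * (Ioi t).indicator f q.2
        ∂(volume.restrict (Ioi (0 : ℝ))) ∂(π.prod π) =
      ∫ t, ∫ q : ℝ × ℝ, (Ioi t).indicator f q.1 * (Ioi t).indicator f q.2 ∂(π.prod π)
        ∂(volume.restrict (Ioi (0 : ℝ))) := integral_integral_swap hint
  rw [e1, e2, e3]
  refine integral_nonneg fun t => ?_
  have e4 : ∫ q : ℝ × ℝ, (Ioi t).indicator f q.1 * (Ioi t).indicator f q.2 ∂(π.prod π) =
      (∫ s, (Ioi t).indicator f s ∂π) * ∫ s, (Ioi t).indicator f s ∂π :=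
    integral_prod_mul _ _
  simp only [e4, Pi.zero_apply]
  exact mul_self_nonneg _

end Pool.Agent.L7h52.AG
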